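import Mathlib
import Pool.Agent.Helper669.KDelta

set_option autoImplicit false

/-!
# Large families of countable sets with a common root
-/

namespace Pool.Agent.U775.MH

open Set Cardinal Pool.Agent.Helper669.KDelta

theorem pigeon {E Y : Type} {T : Set E} (hT : ¬ #T ≤ 𝔠) (hY : #Y ≤ 𝔠) (f : E → Y) :
    ∃ y, ¬ #{α | α ∈ T ∧ f α = y} ≤ 𝔠 := by
  by_contra hcon
  push Not at hcon
  apply hT
  refine small_mono (t := ⋃ y, {α | α ∈ T ∧ f α = y}) ?_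
    (small_iUnion aleph0_le_continuum hY _ hcon)
  intro α hα
  exact mem_iUnion.2 ⟨f α, hα, rfl⟩

theorem exists_root {K : Type} (hK : 𝔠 < #K) (row : K × ℕ → K) (hrow : Function.Injective row)
    (S : K → Set K) (hS : ∀ α, (S α).Countable) :
    ∃ (Q T : Set K), (¬ #T ≤ 𝔠) ∧ Q.Countable ∧ (∀ α ∈ T, Q ⊆ S α) ∧
      (∀ α ∈ T, ∀ i, row (α, i) ∉ Q) ∧ ∀ α ∈ T, ∀ β ∈ T, α ≠ β → S α ∩ S β ⊆ Q := by
  obtain ⟨T, R, hT, hR, hTR⟩ := weak_delta (c := 𝔠) aleph0_le_continuum (not_le.2 hK) S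
    (fun b => lt_of_le_of_lt (le_aleph0_iff_set_countable.2 (hS b)) aleph0_lt_continuum)
  -- the members with all of `row` outside `R`
  have hbad : #{α : K | ∃ i, row (α, i) ∈ R} ≤ 𝔠 := by
    have h1 : ∀ α : {α : K | ∃ i, row (α, i) ∈ R}, ∃ i, row (α.1, i) ∈ R := fun α => α.2
    choose i hi using h1
    refine (mk_le_of_injective (f := fun α => (⟨row (α.1, i α), hi α⟩ : R)) ?_).trans hR
    intro α β h
    have h2 := hrow (Subtype.ext_iff.1 h)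
    exact Subtype.ext (congrArg Prod.fst h2)
  have hT1 := not_small_diff aleph0_le_continuum hT hbad
  obtain ⟨⟨Q, hQR, hQc⟩, hQ⟩ := pigeon (Y := {t : Set K // t ⊆ R ∧ #t ≤ ℵ₀}) hT1 (by
      refine (mk_bounded_subset_le R ℵ₀).trans ?_
      calc (max #R ℵ₀) ^ ℵ₀ ≤ (𝔠 : Cardinal.{0}) ^ ℵ₀ :=
            power_le_power_right (max_le hR aleph0_le_continuum)
        _ = 𝔠 := continuum_power_aleph0)
    (fun α => ⟨S α ∩ R, inter_subset_right, le_aleph0_iff_set_countable.2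
      ((hS α).mono inter_subset_left)⟩)
  have hQ' : ∀ α, α ∈ {α | α ∈ T \ {α : K | ∃ i, row (α, i) ∈ R} ∧
      (⟨S α ∩ R, inter_subset_right, le_aleph0_iff_set_countable.2
      ((hS α).mono inter_subset_left)⟩ : {t : Set K // t ⊆ R ∧ #t ≤ ℵ₀}) = ⟨Q, hQR, hQc⟩} →
      S α ∩ R = Q := fun α hα => Subtype.ext_iff.1 hα.2
  refine ⟨Q, _, hQ, le_aleph0_iff_set_countable.1 hQc, fun α hα => ?_, fun α hα i hi => ?_,
    fun α hα β hβ hne x hx => ?_⟩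
  · rw [← hQ' α hα]
    exact inter_subset_left
  · exact hα.1.2 ⟨i, hQR hi⟩
  · rw [← hQ' α hα]
    exact ⟨hx.1, hTR α hα.1.1 β hβ.1.1 hne hx⟩

theorem exists_disjoint {K : Type} {T : Set K} (hT : ¬ #T ≤ 𝔠) (N : K → Set K)
    (hN : ∀ α ∈ T, ∀ β ∈ T, α ≠ β → Disjoint (N α) (N β)) {B : Set K} (hB : B.Countable) :
    ∃ α ∈ T, Disjoint (N α) B := by
  by_contra hcon
  push Not at hcon
  apply hT
  have h1 : ∀ α : T, ∃ x, x ∈ N α ∧ x ∈ B := fun α => by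
    obtain ⟨x, h⟩ := Set.not_disjoint_iff.1 (hcon α.1 α.2)
    exact ⟨x, h⟩
  choose x hx1 hx2 using h1
  refine (mk_le_of_injective (f := fun α : T => (⟨x α, hx2 α⟩ : B)) ?_).trans
    ((le_aleph0_iff_set_countable.2 hB).trans aleph0_le_continuum)
  intro α β h
  have h2 : x α = x β := Subtype.ext_iff.1 h
  by_contra hne
  have h3 : (α : K) ≠ β := fun h => hne (Subtype.ext h)
  exact Set.disjoint_left.1 (hN α.1 α.2 β.1 β.2 h3) (hx1 α) (h2 ▸ hx1 β)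

theorem exists_zeta {K : Type} {N : Set K} (hN : N.Countable) {x₀ : K} (hx₀ : x₀ ∈ N)
    (hinf : (N \ {x₀}).Infinite) : ∃ ζ : ℕ → K × ℕ, Function.Injective ζ ∧
      (∀ n, ζ (2 * n) = (x₀, n)) ∧ ∀ x m, (x, m) ∈ Set.range ζ ↔ x ∈ N := by
  classical
  have hc : Countable ↥(N \ {x₀}) := (hN.mono sdiff_subset).to_subtype
  have hi : Infinite ↥(N \ {x₀}) := hinf.to_subtype
  obtain ⟨b⟩ : Nonempty (ℕ ≃ ↥(N \ {x₀})) := by
    rw [← Cardinal.eq, mk_nat]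
    exact (mk_eq_aleph0 _).symm
  let ζ : ℕ → K × ℕ := fun i => if i % 2 = 0 then (x₀, i / 2) else
    ((b (Nat.unpair (i / 2)).1 : K), (Nat.unpair (i / 2)).2)
  have h0 : ∀ n, ζ (2 * n) = (x₀, n) := by
    intro n
    have h1 : 2 * n % 2 = 0 := by omega
    have h2 : 2 * n / 2 = n := by omega
    simp only [ζ, h1, if_true, h2]
  have h1 : ∀ n, ζ (2 * n + 1) = ((b (Nat.unpair n).1 : K), (Nat.unpair n).2) := by
    intro n
    have h1 : ¬ (2 * n + 1) % 2 = 0 := by omega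
    have h2 : (2 * n + 1) / 2 = n := by omega
    simp only [ζ, if_neg h1, h2]
  have hcase : ∀ i : ℕ, (∃ n, i = 2 * n) ∨ ∃ n, i = 2 * n + 1 := by
    intro i
    rcases Nat.even_or_odd' i with ⟨n, h | h⟩
    · exact Or.inl ⟨n, h⟩
    · exact Or.inr ⟨n, h⟩
  have hb : ∀ k, (b k : K) ≠ x₀ := fun k h => (b k).2.2 h
  refine ⟨ζ, ?_, h0, fun x m => ⟨?_, ?_⟩⟩
  · intro i j hij
    rcases hcase i with ⟨n, rfl⟩ | ⟨n, rfl⟩ <;> rcases hcase j with ⟨k, rfl⟩ | ⟨k, rfl⟩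
    · rw [h0, h0, Prod.mk.injEq] at hij
      rw [hij.2]
    · rw [h0, h1, Prod.mk.injEq] at hij
      exact absurd hij.1.symm (hb _)
    · rw [h0, h1, Prod.mk.injEq] at hij
      exact absurd hij.1 (hb _)
    · rw [h1, h1, Prod.mk.injEq] at hij
      have h2 : (Nat.unpair n).1 = (Nat.unpair k).1 := b.injective (Subtype.ext hij.1)
      have h3 : Nat.unpair n = Nat.unpair k := Prod.ext h2 hij.2
      rw [← Nat.pair_unpair n, ← Nat.pair_unpair k, h3]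
  · rintro ⟨i, hi⟩
    rcases hcase i with ⟨n, rfl⟩ | ⟨n, rfl⟩
    · rw [h0, Prod.mk.injEq] at hi
      rw [← hi.1]
      exact hx₀
    · rw [h1, Prod.mk.injEq] at hi
      rw [← hi.1]
      exact (b _).2.1
  · intro hx
    by_cases hxx : x = x₀
    · exact ⟨2 * m, by rw [h0, hxx]⟩
    · refine ⟨2 * Nat.pair (b.symm ⟨x, hx, hxx⟩) m + 1, ?_⟩
      rw [h1, Nat.unpair_pair]
      simp

end Pool.Agent.U775.MH
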