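import Pool.Agent.U775.MH.Put
import Pool.Agent.U775.MH.Family

set_option autoImplicit false

/-!
# Adding more than the continuum many Cohen reals forces the principle
-/

namespace Pool.Agent.U775.MH

open Set Cardinal Pool.Agent.Helper669.Forcing Pool.Agent.H458R4.Cohen
open Pool.Agent.Y577.AD.Kunen (restr mem_restr le_restr exists_supp)

variable {K : Type}

/-! ### Deciding -/

/-- the condition decides that the generic filter meets `N` (respectively does not meet it) -/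
def dec (b : Bool) (N : Set (Fn K)) : Set (Fn K) := if b then meets N else fnot (meets N)

theorem down_dec (b : Bool) (N : Set (Fn K)) : Down (dec b N) := by
  cases b
  · exact down_fnot _
  · exact down_meets _

theorem dense_dec {b : Bool} {N : Set (Fn K)} {p : Fn K}
    (h : ∀ q ≤ p, ∃ r ≤ q, r ∈ dec b N) : p ∈ dec b N := by
  cases b
  · intro q hq hqm
    obtain ⟨r, hr, hr'⟩ := h q hq
    exact hr' r le_rfl (down_meets _ _ hqm _ hr)
  · intro q hq
    obtain ⟨r, hr, hr'⟩ := h q hq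
    have h1 : r ∈ meets N := hr'
    obtain ⟨t, ht, s, hs, hts⟩ := h1 r le_rfl
    exact ⟨t, ht.trans hr, s, hs, hts⟩

theorem supp_dec {N : Set (Fn K)} {S : Set K} (hS : ∀ q, q ∈ meets N → restr S q ∈ meets N)
    {b : Bool} {q : Fn K} (hq : q ∈ dec b N) : restr S q ∈ dec b N := by
  cases b
  · intro t ht htN
    have h1 := hS t htN
    have hc : Compat (restr S t) q := by
      rw [compat_iff]
      intro a c c' hc hc'
      obtain ⟨hc1, hc2⟩ := mem_restr.1 hc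
      exact t.fn a c c' hc1 (ht (mem_restr.2 ⟨hc', hc2⟩))
    obtain ⟨u, hu1, hu2⟩ := hc
    exact hq u hu2 (down_meets _ _ h1 _ hu1)
  · exact hS q hq

theorem mem_fiff_of {φ ψ : Set (Fn K)} {p : Fn K} (h1 : ∀ q ≤ p, q ∈ φ → ∃ r ≤ q, r ∈ ψ)
    (h2 : ∀ q ≤ p, q ∈ ψ → ∃ r ≤ q, r ∈ φ) : p ∈ fiff φ ψ := mem_fiff.2 ⟨h1, h2⟩

/-- the type of the name `y` over the root `Q`, with respect to the enumeration `ζ` -/
def tp (Q : Set K) (ζ : ℕ → K × ℕ) (hζ : Function.Injective ζ) (y : ℕ → Set (Fn K)) :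
    Set (ℕ × Bool × {a : Fn K // ∀ z ∈ a.g, z.1.1 ∈ Q} × List Bool) :=
  {w | put ζ hζ w.2.2.2 w.2.2.1.1 ∈ dec w.2.1 (y w.1)}

theorem mk_tp_le {Q : Set K} (hQ : Q.Countable) :
    #(Set (ℕ × Bool × {a : Fn K // ∀ z ∈ a.g, z.1.1 ∈ Q} × List Bool)) ≤ 𝔠 := by
  classical
  have h1 : Countable {a : Fn K // ∀ z ∈ a.g, z.1.1 ∈ Q} := by
    have hc : Countable ↥Q := hQ.to_subtype
    let f : {a : Fn K // ∀ z ∈ a.g, z.1.1 ∈ Q} → Finset ((Q × ℕ) × Bool) := fun a =>
      a.1.g.attach.image fun z => ((⟨z.1.1.1, a.2 z.1 z.2⟩, z.1.1.2), z.1.2)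
    have hf : Function.Injective f := by
      intro a a' h
      have key : ∀ c : {a : Fn K // ∀ z ∈ a.g, z.1.1 ∈ Q}, ∀ z : (K × ℕ) × Bool,
          z ∈ c.1.g ↔ ∃ hz : z.1.1 ∈ Q, ((⟨z.1.1, hz⟩, z.1.2), z.2) ∈ f c := by
        intro c z
        constructor
        · intro hz
          refine ⟨c.2 z hz, ?_⟩
          simp only [f, Finset.mem_image, Finset.mem_attach, true_and]
          exact ⟨⟨z, hz⟩, rfl⟩
        · rintro ⟨hz, h⟩
          simp only [f, Finset.mem_image, Finset.mem_attach, true_and] at h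
          obtain ⟨w, hw⟩ := h
          simp only [Prod.mk.injEq, Subtype.mk.injEq] at hw
          have : w.1 = z := Prod.ext (Prod.ext hw.1.1 hw.1.2) hw.2
          rw [← this]
          exact w.2
      apply Subtype.ext
      apply ext_g
      ext z
      rw [key a z, key a' z, h]
    exact hf.countable
  rw [mk_set]
  calc (2 : Cardinal.{0}) ^ #(ℕ × Bool × {a : Fn K // ∀ z ∈ a.g, z.1.1 ∈ Q} × List Bool)
      ≤ 2 ^ ℵ₀ := power_le_power_left two_ne_zero mk_le_aleph0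
    _ = 𝔠 := two_power_aleph0

theorem forced (hK : 𝔠 < #K) (p : Fn K) : p ∈ ContinuousHalfN (Fn K) := by
  classical
  intro F
  refine mem_fimp.2 fun p₀ _ _ => ⟨p₀, le_rfl, ?_⟩
  -- the rows
  obtain ⟨row, hrow⟩ : ∃ row : K × ℕ → K, Function.Injective row := by
    have h1 : #(K × ℕ) ≤ #K := by
      rw [mk_prod, lift_id, lift_id, mk_nat]
      exact mul_le_of_le (aleph0_le_continuum.trans hK.le) le_rfl
        (aleph0_le_continuum.trans hK.le)
    exact ⟨h1.some, h1.some.injective⟩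
  -- the names of the values
  let x : K → ℕ → Set (Fn K) := fun α n => {q | ((row (α, 0), n), true) ∈ q.g}
  let y : K → ℕ → Set (Fn K) := fun α => F (x α)
  choose A hAc hA using fun α => exists_supp (y α)
  let S : K → Set K := fun α => A α ∪ Set.range fun i => row (α, i)
  have hS : ∀ α, (S α).Countable := fun α => (hAc α).union (Set.countable_range _)
  have hSy : ∀ α n q, q ∈ meets (y α n) → restr (S α) q ∈ meets (y α n) := by
    intro α n q hq
    refine down_meets _ _ (hA α n q hq) _ ?_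
    intro z hz
    exact mem_restr.2 ⟨(mem_restr.1 hz).1, Or.inl (mem_restr.1 hz).2⟩
  obtain ⟨Q, T, hT, hQc, hQS, hQrow, hTQ⟩ := exists_root hK row hrow S hS
  -- the enumerations
  have hzex : ∀ α, ∃ ζ : ℕ → K × ℕ, Function.Injective ζ ∧ (α ∈ T →
      (∀ n, ζ (2 * n) = (row (α, 0), n)) ∧ ∀ x m, (x, m) ∈ Set.range ζ ↔ x ∈ S α \ Q) := by
    intro α
    by_cases hα : α ∈ T
    · obtain ⟨ζ, h1, h2, h3⟩ := exists_zeta (N := S α \ Q) ((hS α).mono sdiff_subset)
        (x₀ := row (α, 0)) ⟨Or.inr ⟨0, rfl⟩, hQrow α hα 0⟩ (by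
          refine Set.Infinite.mono (s := Set.range fun i : ℕ => row (α, i + 1)) ?_
            (Set.infinite_range_of_injective fun i j h => ?_)
          · rintro _ ⟨i, rfl⟩
            refine ⟨⟨Or.inr ⟨i + 1, rfl⟩, hQrow α hα _⟩, fun h => ?_⟩
            have h1 := hrow h
            simp at h1
          · have h1 := hrow h
            simpa using h1)
      exact ⟨ζ, h1, fun _ => ⟨h2, h3⟩⟩
    · refine ⟨fun i => (α, i), fun i j h => ?_, fun h => absurd h hα⟩
      exact congrArg Prod.snd h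
  choose ζ hζ hζT using hzex
  obtain ⟨τ, hτ⟩ := pigeon hT (mk_tp_le hQc) fun α => tp Q (ζ α) (hζ α) (y α)
  set T' := {α | α ∈ T ∧ tp Q (ζ α) (hζ α) (y α) = τ} with hT'
  have hdisj : ∀ α ∈ T', ∀ β ∈ T', α ≠ β → Disjoint (S α \ Q) (S β \ Q) := by
    intro α hα β hβ hne
    rw [Set.disjoint_left]
    rintro z ⟨hz1, hz2⟩ ⟨hz3, _⟩
    exact hz2 (hTQ α hα.1 β hβ.1 hne ⟨hz1, hz3⟩)
  -- the code
  let C : List Bool → ℕ → Bool → Set (Fn K) := fun s n b =>
    {a | ∃ ha : ∀ z ∈ a.g, z.1.1 ∈ Q, (n, b, ⟨a, ha⟩, s) ∈ τ}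
  refine mem_fex.2 fun p₁ _ => ⟨p₁, le_rfl, C, fun D => ?_⟩
  refine mem_fimp.2 fun p₂ _ hD => ⟨p₂, le_rfl, ?_⟩
  -- the support of `D`
  obtain ⟨B, hBc, hB⟩ : ∃ B : Set K, B.Countable ∧
      ∀ j t q, q ∈ meets (D j t) → restr B q ∈ meets (D j t) := by
    obtain ⟨f, hf⟩ := exists_surjective_nat (ℕ × List Bool)
    obtain ⟨B, h1, h2⟩ := exists_supp (fun k => D (f k).1 (f k).2)
    refine ⟨B, h1, fun j t q hq => ?_⟩
    obtain ⟨k, hk⟩ := hf (j, t)
    have h3 := h2 k q (by rw [hk]; exact hq)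
    rw [hk] at h3
    exact h3
  obtain ⟨α, hα, hαB⟩ := exists_disjoint hτ (fun α => S α \ Q) hdisj hBc
  obtain ⟨hz0, hzr⟩ := hζT α hα.1
  have hin : ∀ z : (K × ℕ) × Bool, z.1 ∈ Set.range (ζ α) ↔ z.1.1 ∈ S α \ Q := fun z => by
    rw [← hzr z.1.1 z.1.2]
  refine mem_fex.2 fun p₃ hp₃ => ⟨p₃, le_rfl, cr (ζ α), fun j => ?_, fun n => ?_⟩
  · -- genericity
    refine mem_fex.2 fun r hr => ?_
    obtain ⟨s, _, hs⟩ := clean (ζ α) (hζ α) r 0
    obtain ⟨r', hr', t, ht1, ht2⟩ := mem_fex.1 (hD j s) (put (ζ α) (hζ α) s r)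
      (hs.trans (hr.trans hp₃))
    rw [mem_fground] at ht1
    refine ⟨put (ζ α) (hζ α) t r', (put_le_put hr' ht1).trans hs, t, segN_put, ?_⟩
    refine down_meets _ _ (hB j t r' ht2) _ ?_
    intro z hz
    obtain ⟨h1, h2⟩ := mem_restr.1 hz
    refine mem_put.2 (Or.inl ⟨h1, fun h3 => ?_⟩)
    exact Set.disjoint_left.1 hαB ((hin z).1 h3) h2
  · -- the values
    have hhalf : halfN (cr (ζ α)) = x α := by
      funext n
      simp only [halfN, cr, x, hz0]
    have hval : F (halfN (cr (ζ α))) n = y α n := by rw [hhalf]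
    beta_reduce
    rw [hval]
    have up : ∀ b, ∀ r : Fn K, r ∈ dec b (y α n) →
        ∃ r' ≤ r, ∃ s, r' ∈ fand (SegN s (cr (ζ α))) (meets (C s n b)) := by
      intro b r hr
      obtain ⟨s, _, hs⟩ := clean (ζ α) (hζ α) r 0
      refine ⟨_, hs, s, segN_put, ?_⟩
      have ha : ∀ z ∈ (restr Q r).g, z.1.1 ∈ Q := fun z hz => (mem_restr.1 hz).2
      have h1 : restr (S α) (put (ζ α) (hζ α) s r) ∈ dec b (y α n) :=
        supp_dec (hSy α n) (down_dec _ _ _ hr _ hs)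
      have h2 : put (ζ α) (hζ α) s (restr Q r) ≤ restr (S α) (put (ζ α) (hζ α) s r) := by
        rw [le_iff]
        intro z hz
        obtain ⟨h3, h4⟩ := mem_restr.1 hz
        rw [mem_put]
        rcases mem_put.1 h3 with ⟨h5, h6⟩ | h5
        · refine Or.inl ⟨mem_restr.2 ⟨h5, ?_⟩, h6⟩
          by_contra h7
          exact h6 ((hin z).2 ⟨h4, h7⟩)
        · exact Or.inr h5
      have h3 : restr Q r ∈ C s n b := by
        refine ⟨ha, ?_⟩
        rw [← hα.2]
        exact down_dec _ _ _ h1 _ h2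
      refine meets_of_le h3 ?_
      rw [le_iff]
      intro z hz
      obtain ⟨h4, h5⟩ := mem_restr.1 hz
      exact mem_put.2 (Or.inl ⟨h4, fun h6 => ((hin z).1 h6).2 h5⟩)
    have low : ∀ b, ∀ r : Fn K, ∀ s, r ∈ fand (SegN s (cr (ζ α))) (meets (C s n b)) →
        r ∈ dec b (y α n) := by
      rintro b r s ⟨hr1, hr2⟩
      refine dense_dec fun q hq => ?_
      obtain ⟨r₁, hr₁, a, ⟨ha, hτa⟩, hra⟩ := hr2 q hq
      obtain ⟨r₂, hr₂, hr₂'⟩ := exists_of_segN (hζ α)
        (down_SegN _ _ _ hr1 _ (hr₁.trans hq))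
      refine ⟨r₂, hr₂.trans hr₁, ?_⟩
      rw [← hα.2] at hτa
      refine down_dec _ _ _ (show put (ζ α) (hζ α) s a ∈ dec b (y α n) from hτa) _ ?_
      rw [le_iff]
      intro z hz
      rcases mem_put.1 hz with ⟨h1, _⟩ | ⟨i, hi, h1⟩
      · exact hr₂ (hra h1)
      · rw [h1]
        exact hr₂' i hi
    refine ⟨mem_fiff_of (fun q _ hq => ?_) (fun q _ hq => ?_),
      mem_fiff_of (fun q _ hq => ?_) (fun q _ hq => ?_)⟩
    · obtain ⟨r', hr', s, hs⟩ := up true q hq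
      exact ⟨r', hr', mem_fex_of_mem s (down_fand (down_SegN _ _) (down_meets _)) hs⟩
    · obtain ⟨r', hr', s, hs⟩ := mem_fex.1 hq q le_rfl
      exact ⟨r', hr', low true r' s hs⟩
    · obtain ⟨r', hr', s, hs⟩ := up false q hq
      exact ⟨r', hr', mem_fex_of_mem s (down_fand (down_SegN _ _) (down_meets _)) hs⟩
    · obtain ⟨r', hr', s, hs⟩ := mem_fex.1 hq q le_rfl
      exact ⟨r', hr', low false r' s hs⟩

end Pool.Agent.U775.MH
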