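import Pool.Agent.R597.MH2

/-!
# Clean compact sets for families of open sets indexed by a non-meagre subset of a space

The arguments of `Pool.Agent.R597.MH1` and `Pool.Agent.R597.MH2`, for an arbitrary second
countable space of indices in place of the real line.
-/

set_option autoImplicit false

namespace Pool.Agent.U775.MH

open Set Filter Topology MeasureTheory
open Pool.Agent.R597.MH (IsBase exists_isBase baire_piece)

variable {X : Type} [TopologicalSpace X]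

/-- `I` enumerates a base of open sets of `X`. -/
def IsBaseX (I : ℕ → Set X) : Prop :=
  (∀ n, IsOpen (I n)) ∧ ∀ V : Set X, IsOpen V → ∀ x ∈ V, ∃ n, x ∈ I n ∧ I n ⊆ V

theorem exists_isBaseX (X : Type) [TopologicalSpace X] [SecondCountableTopology X] [Nonempty X] :
    ∃ I : ℕ → Set X, IsBaseX I := by
  obtain ⟨b, hbc, _, hb⟩ := TopologicalSpace.exists_countable_basis X
  have hne : b.Nonempty := by
    obtain ⟨t, ht, _⟩ := hb.exists_subset_of_mem_open (mem_univ (Classical.arbitrary X))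
      isOpen_univ
    exact ⟨t, ht⟩
  obtain ⟨I, hI⟩ := hbc.exists_eq_range hne
  refine ⟨I, fun n => hb.isOpen (hI ▸ mem_range_self n), fun V hV x hx => ?_⟩
  obtain ⟨t, ht, hxt, htV⟩ := hb.exists_subset_of_mem_open hx hV
  rw [hI] at ht
  obtain ⟨n, rfl⟩ := ht
  exact ⟨n, hxt, htV⟩

/-- A non-meagre set is dense and non-meagre in some member of the base. -/
theorem exists_local {I : ℕ → Set X} (hI : IsBaseX I) {T : Set X} (hT : ¬ IsMeagre T) :
    ∃ n, ¬ IsMeagre (T ∩ I n) ∧ I n ⊆ closure T := by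
  set T' : Set X := T \ ⋃ n ∈ {n | IsMeagre (T ∩ I n)}, T ∩ I n with hT'
  have h1 : ¬ IsMeagre T' := by
    intro h
    apply hT
    have h2 : IsMeagre (⋃ n ∈ {n | IsMeagre (T ∩ I n)}, T ∩ I n) :=
      isMeagre_biUnion (Set.to_countable _) (fun n hn => hn)
    refine (h.union h2).mono ?_
    intro x hx
    by_cases hx' : x ∈ ⋃ n ∈ {n | IsMeagre (T ∩ I n)}, T ∩ I n
    · exact Or.inr hx'
    · exact Or.inl ⟨hx, hx'⟩
  have h2 : (interior (closure T')).Nonempty := by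
    by_contra h
    rw [not_nonempty_iff_eq_empty] at h
    exact h1 (IsNowhereDense.isMeagre h)
  obtain ⟨y, hy⟩ := h2
  have h3 : (interior (closure T') ∩ T').Nonempty :=
    mem_closure_iff.1 (interior_subset hy) _ isOpen_interior hy
  obtain ⟨x, hx1, hx2⟩ := h3
  obtain ⟨n, hn1, hn2⟩ := hI.2 _ isOpen_interior x hx1
  refine ⟨n, fun hm => ?_, ?_⟩
  · apply hx2.2
    simp only [mem_iUnion]
    exact ⟨n, hm, hx2.1, hn1⟩
  · exact hn2.trans (interior_subset.trans (closure_mono sdiff_subset))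

/-- Almost all `r` in `A ∩ I n` satisfy `K ⊆ U r`. -/
def Forced (I : ℕ → Set X) (A : Set X) (U : X → Set ℝ) (n : ℕ) (K : Set ℝ) : Prop :=
  IsMeagre {r | r ∈ A ∩ I n ∧ ¬ K ⊆ U r}

variable {I : ℕ → Set X} {A : Set X} {U : X → Set ℝ}

theorem Forced.exists_mem {n : ℕ} {K : Set ℝ} (h : Forced I A U n K)
    (hn : ¬ IsMeagre (A ∩ I n)) : ∃ r, K ⊆ U r := by
  by_contra hc
  push Not at hc
  apply hn
  refine IsMeagre.mono ?_ h
  intro r hr
  exact ⟨hr, hc r⟩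

theorem Forced.union {n : ℕ} {K L : Set ℝ} (h : Forced I A U n K) (h' : Forced I A U n L) :
    Forced I A U n (K ∪ L) := by
  refine IsMeagre.mono ?_ (IsMeagre.union h h')
  rintro r ⟨hr, hK⟩
  by_cases h1 : K ⊆ U r
  · exact Or.inr ⟨hr, fun h2 => hK (union_subset h1 h2)⟩
  · exact Or.inl ⟨hr, h1⟩

theorem forced_empty {n : ℕ} : Forced I A U n ∅ := by
  refine IsMeagre.mono ?_ IsMeagre.empty
  rintro r ⟨_, hr⟩
  exact absurd (empty_subset _) hr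

theorem separation {n : ℕ} (hn : ¬ IsMeagre (A ∩ I n))
    (hU : ∀ r, volume (U r) < 1/4) {δ : ENNReal} (hδ : δ ≠ 0) :
    ∃ A₁ A₂ : Set ℝ, IsCompact A₁ ∧ IsCompact A₂ ∧ A₁ ⊆ Icc 0 1 ∧ A₂ ⊆ Icc 0 1 ∧
      Disjoint A₁ A₂ ∧ volume (Icc (0:ℝ) 1 \ (A₁ ∪ A₂)) ≤ δ ∧ Forced I A U n A₁ ∧
      ∀ K, IsCompact K → K ⊆ Icc 0 1 → Forced I A U n K → volume (K ∩ A₂) = 0 := by
  set S : Set ENNReal := {t | ∃ K : Set ℝ, IsCompact K ∧ K ⊆ Icc 0 1 ∧ Forced I A U n K ∧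
    volume K = t} with hS
  have hSne : S.Nonempty := ⟨0, ∅, isCompact_empty, empty_subset _, forced_empty, measure_empty⟩
  obtain ⟨u, _, hut, huS⟩ := exists_seq_tendsto_sSup hSne (OrderTop.bddAbove S)
  set m := sSup S with hm
  have hmle : m ≤ 1/4 := by
    apply sSup_le
    rintro t ⟨K, _, _, hK, rfl⟩
    obtain ⟨r, hr⟩ := hK.exists_mem hn
    exact (measure_mono hr).trans (hU r).le
  have hmtop : m ≠ ⊤ := ne_top_of_le_ne_top (by norm_num) hmle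
  choose K hKc hK01 hKf hKv using huS
  set P : Set ℝ := ⋃ k, K k with hP
  have hKm : ∀ k, MeasurableSet (K k) := fun k => (hKc k).measurableSet
  have hPm : MeasurableSet P := MeasurableSet.iUnion hKm
  have hP01 : P ⊆ Icc 0 1 := iUnion_subset hK01
  have hPfin : volume P ≠ ⊤ :=
    ne_top_of_le_ne_top (by simp) (measure_mono hP01)
  -- every forced set is almost contained in `P`
  have key : ∀ L, IsCompact L → L ⊆ Icc 0 1 → Forced I A U n L → volume (L \ P) = 0 := by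
    intro L hLc hL01 hLf
    have h1 : ∀ k, volume (L \ P) + u k ≤ m := by
      intro k
      rw [← hKv k]
      have hd : Disjoint (L \ P) (K k) := by
        refine disjoint_left.2 fun x hx hx' => hx.2 (mem_iUnion.2 ⟨k, hx'⟩)
      rw [← measure_union hd (hKm k)]
      refine (measure_mono (union_subset_union sdiff_subset subset_rfl)).trans ?_
      exact le_sSup ⟨L ∪ K k, hLc.union (hKc k), union_subset hL01 (hK01 k), hLf.union (hKf k), rfl⟩
    have h2 : volume (L \ P) + m ≤ m := by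
      refine le_of_tendsto' (Tendsto.const_add _ hut) h1
    have h3 : volume (L \ P) + m ≤ 0 + m := by simpa using h2
    exact nonpos_iff_eq_zero.1 ((ENNReal.add_le_add_iff_right hmtop).1 h3)
  -- partial unions
  have hacc : ∀ k, Forced I A U n (Set.accumulate K k) ∧ IsCompact (Set.accumulate K k) := by
    intro k
    induction k with
    | zero =>
      have : Set.accumulate K 0 = K 0 := by
        ext x; simp [Set.mem_accumulate]
      rw [this]; exact ⟨hKf 0, hKc 0⟩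
    | succ k ih =>
      have : Set.accumulate K (k+1) = Set.accumulate K k ∪ K (k+1) := Set.accumulate_succ K k
      rw [this]; exact ⟨ih.1.union (hKf _), ih.2.union (hKc _)⟩
  have hδ2 : δ / 2 ≠ 0 := by simp [hδ]
  have hlim := tendsto_measure_iUnion_accumulate (μ := (volume : Measure ℝ)) (f := K)
  have hev : ∀ᶠ k in atTop, volume P < volume (Set.accumulate K k) + δ/2 := by
    have h1 : Tendsto (fun k => volume (Set.accumulate K k) + δ/2) atTop (𝓝 (volume P + δ/2)) :=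
      hlim.add_const _
    exact h1.eventually_const_lt (ENNReal.lt_add_right hPfin hδ2)
  obtain ⟨k, hk⟩ := hev.exists
  have haccP : Set.accumulate K k ⊆ P := by
    intro x hx
    obtain ⟨i, _, hi⟩ := Set.mem_accumulate.1 hx
    exact mem_iUnion.2 ⟨i, hi⟩
  have hd1 : volume (P \ Set.accumulate K k) ≤ δ/2 := by
    rw [measure_sdiff haccP (hacc k).2.measurableSet.nullMeasurableSet
      (ne_top_of_le_ne_top hPfin (measure_mono haccP))]
    exact tsub_le_iff_left.2 hk.le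
  have hQm : MeasurableSet (Icc (0:ℝ) 1 \ P) := measurableSet_Icc.diff hPm
  have hQfin : volume (Icc (0:ℝ) 1 \ P) ≠ ⊤ :=
    ne_top_of_le_ne_top (by simp) (measure_mono (sdiff_subset (s := Icc (0:ℝ) 1)))
  obtain ⟨A₂, hA₂, hA₂c, hA₂d⟩ := hQm.exists_isCompact_sdiff_lt hQfin hδ2
  refine ⟨Set.accumulate K k, A₂, (hacc k).2, hA₂c, haccP.trans hP01,
    hA₂.trans sdiff_subset, ?_, ?_, (hacc k).1, ?_⟩
  · exact disjoint_left.2 fun x hx hx' => (hA₂ hx').2 (haccP hx)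
  · have hsub : Icc (0:ℝ) 1 \ (Set.accumulate K k ∪ A₂) ⊆
        (P \ Set.accumulate K k) ∪ ((Icc (0:ℝ) 1 \ P) \ A₂) := by
      rintro x ⟨hx, hx'⟩
      rw [mem_union, not_or] at hx'
      by_cases hxP : x ∈ P
      · exact Or.inl ⟨hxP, hx'.1⟩
      · exact Or.inr ⟨⟨hx, hxP⟩, hx'.2⟩
    calc volume (Icc (0:ℝ) 1 \ (Set.accumulate K k ∪ A₂)) ≤ _ := measure_mono hsub
      _ ≤ volume (P \ Set.accumulate K k) + volume ((Icc (0:ℝ) 1 \ P) \ A₂) := measure_union_le _ _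
      _ ≤ δ/2 + δ/2 := add_le_add hd1 hA₂d.le
      _ = δ := ENNReal.add_halves δ
  · intro L hLc hL01 hLf
    refine measure_mono_null ?_ (key L hLc hL01 hLf)
    rintro x ⟨hx, hx'⟩
    exact ⟨hx, (hA₂ hx').2⟩

/-- Let `A` be a non-meagre set and `U r` open sets of measure `< 1/4` such that for compact `K`
the condition `K ⊆ U r` is relatively open on `A`.  Then some compact `C ⊆ [0,1]` of measure
`> 1/2` has the following property: if the open sets `O j` are dense in `C`, then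
`C ∩ ⋂ O j ⊆ U r` only for a meagre set of `r ∈ A`. -/
theorem clean_set [SecondCountableTopology X] [Nonempty X] {A : Set X} {U : X → Set ℝ}
    (hUo : ∀ r, IsOpen (U r)) (hU : ∀ r, volume (U r) < 1/4)
    (hcont : ∀ K, IsCompact K → ∀ r₀ ∈ A, K ⊆ U r₀ → ∀ᶠ r in 𝓝[A] r₀, K ⊆ U r) :
    ∃ C : Set ℝ, IsCompact C ∧ C ⊆ Icc 0 1 ∧
      ∀ O : ℕ → Set ℝ, (∀ j, IsOpen (O j)) →
        (∀ j, ∀ V : Set ℝ, IsOpen V → (C ∩ V).Nonempty → (C ∩ V ∩ O j).Nonempty) →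
        IsMeagre {r | r ∈ A ∧ C ∩ (⋂ j, O j) ⊆ U r} := by
  obtain ⟨I, hI⟩ := exists_isBase
  obtain ⟨J, hJ⟩ := exists_isBaseX X
  obtain ⟨δ, hδ, hδs⟩ := ENNReal.exists_pos_sum_of_countable' (ε := 1/4) (by norm_num) ℕ
  have hex : ∀ n, ∃ A₁ A₂ : Set ℝ, IsCompact A₁ ∧ IsCompact A₂ ∧ A₁ ⊆ Icc 0 1 ∧ A₂ ⊆ Icc 0 1 ∧
      Disjoint A₁ A₂ ∧ volume (Icc (0:ℝ) 1 \ (A₁ ∪ A₂)) ≤ δ n ∧ (¬ IsMeagre (A ∩ J n) →
      Forced J A U n A₁ ∧
      ∀ K, IsCompact K → K ⊆ Icc 0 1 → Forced J A U n K → volume (K ∩ A₂) = 0) := by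
    intro n
    by_cases hn : IsMeagre (A ∩ J n)
    · exact ⟨∅, Icc 0 1, isCompact_empty, isCompact_Icc, empty_subset _, subset_rfl,
        empty_disjoint _, by simp, fun h => absurd hn h⟩
    · obtain ⟨A₁, A₂, h1, h2, h3, h4, h5, h6, h7, h8⟩ := separation hn hU (hδ n).ne'
      exact ⟨A₁, A₂, h1, h2, h3, h4, h5, h6, fun _ => ⟨h7, h8⟩⟩
  choose A₁ A₂ hc₁ hc₂ h01₁ h01₂ hdis hvol hforced using hex
  set C₀ : Set ℝ := Icc 0 1 ∩ ⋂ n, (A₁ n ∪ A₂ n) with hC₀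
  have hC₀cl : IsClosed C₀ :=
    isClosed_Icc.inter (isClosed_iInter fun n => ((hc₁ n).union (hc₂ n)).isClosed)
  have hC₀m : MeasurableSet C₀ := hC₀cl.measurableSet
  have hC₀01 : C₀ ⊆ Icc 0 1 := inter_subset_left
  have hcompl : volume (Icc (0:ℝ) 1 \ C₀) < 1/4 := by
    have hsub : Icc (0:ℝ) 1 \ C₀ ⊆ ⋃ n, (Icc (0:ℝ) 1 \ (A₁ n ∪ A₂ n)) := by
      rintro x ⟨hx, hx'⟩
      have : ∃ n, x ∉ A₁ n ∪ A₂ n := by
        by_contra hc
        push Not at hc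
        exact hx' ⟨hx, mem_iInter.2 hc⟩
      obtain ⟨n, hn⟩ := this
      exact mem_iUnion.2 ⟨n, hx, hn⟩
    calc volume (Icc (0:ℝ) 1 \ C₀) ≤ volume (⋃ n, (Icc (0:ℝ) 1 \ (A₁ n ∪ A₂ n))) :=
          measure_mono hsub
      _ ≤ ∑' n, volume (Icc (0:ℝ) 1 \ (A₁ n ∪ A₂ n)) := measure_iUnion_le _
      _ ≤ ∑' n, δ n := ENNReal.tsum_le_tsum hvol
      _ < 1/4 := hδs
  -- the self-supporting kernel
  set Z : Set ℝ := ⋃ k ∈ {k | volume (C₀ ∩ I k) = 0}, I k with hZ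
  have hZo : IsOpen Z := isOpen_biUnion fun k _ => hI.1 k
  have hZnull : volume (C₀ ∩ Z) = 0 := by
    rw [hZ, inter_iUnion₂]
    exact (measure_biUnion_null_iff (Set.to_countable _)).2 fun k hk => hk
  set C : Set ℝ := C₀ \ Z with hC
  have hCcl : IsClosed C := hC₀cl.sdiff hZo
  have hC01 : C ⊆ Icc 0 1 := sdiff_subset.trans hC₀01
  have hCc : IsCompact C := isCompact_Icc.of_isClosed_subset hCcl hC01
  have hCC₀ : C ⊆ C₀ := sdiff_subset
  have hpos : ∀ V : Set ℝ, IsOpen V → (C ∩ V).Nonempty → volume (C ∩ V) ≠ 0 := by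
    rintro V hV ⟨x, hxC, hxV⟩ h0
    obtain ⟨k, hk1, hk2⟩ := hI.2 V hV x hxV
    apply hxC.2
    rw [hZ]
    simp only [mem_iUnion]
    refine ⟨k, ?_, hk1⟩
    have hsub : C₀ ∩ I k ⊆ (C ∩ V) ∪ (C₀ ∩ Z) := by
      rintro y ⟨hy1, hy2⟩
      by_cases hyZ : y ∈ Z
      · exact Or.inr ⟨hy1, hyZ⟩
      · exact Or.inl ⟨⟨hy1, hyZ⟩, hk2 hy2⟩
    refine measure_mono_null hsub ?_
    exact measure_union_null h0 hZnull
  have hCU : ∀ r, ¬ C ⊆ U r := by
    intro r hr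
    have h1 : volume (Icc (0:ℝ) 1) ≤ volume (U r) + volume (Icc (0:ℝ) 1 \ C₀) := by
      have hsub : Icc (0:ℝ) 1 ⊆ (U r ∪ (Icc (0:ℝ) 1 \ C₀)) ∪ (C₀ ∩ Z) := by
        intro x hx
        by_cases hx0 : x ∈ C₀
        · by_cases hxZ : x ∈ Z
          · exact Or.inr ⟨hx0, hxZ⟩
          · exact Or.inl (Or.inl (hr ⟨hx0, hxZ⟩))
        · exact Or.inl (Or.inr ⟨hx, hx0⟩)
      calc volume (Icc (0:ℝ) 1) ≤ _ := measure_mono hsub
        _ ≤ volume (U r ∪ (Icc (0:ℝ) 1 \ C₀)) + volume (C₀ ∩ Z) := measure_union_le _ _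
        _ = volume (U r ∪ (Icc (0:ℝ) 1 \ C₀)) := by rw [hZnull, add_zero]
        _ ≤ _ := measure_union_le _ _
    have h2 : volume (U r) + volume (Icc (0:ℝ) 1 \ C₀) < 1/4 + 1/4 :=
      ENNReal.add_lt_add (hU r) hcompl
    have h3 : volume (Icc (0:ℝ) 1) < 1/4 + 1/4 := lt_of_le_of_lt h1 h2
    rw [Real.volume_Icc] at h3
    norm_num at h3
    have h4 : (4:ENNReal)⁻¹ + 4⁻¹ ≤ 1 := by
      have : (4:ENNReal)⁻¹ ≤ 2⁻¹ := ENNReal.inv_le_inv.2 (by norm_num)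
      calc (4:ENNReal)⁻¹ + 4⁻¹ ≤ 2⁻¹ + 2⁻¹ := add_le_add this this
        _ = 1 := ENNReal.inv_two_add_inv_two
    exact absurd h3 (not_lt.2 h4)
  refine ⟨C, hCc, hC01, fun O hO hdense => ?_⟩
  -- pieces
  set T : ℕ × ℕ → Set X := fun q =>
    {r | r ∈ A ∧ ¬ C ∩ I q.2 ⊆ U r ∧ C ∩ I q.2 ∩ O q.1 ⊆ U r} with hT
  have hcover : {r | r ∈ A ∧ C ∩ (⋂ j, O j) ⊆ U r} ⊆ ⋃ q, T q := by
    rintro r ⟨hrA, hr⟩
    have hFne : (C \ U r).Nonempty := by
      rw [sdiff_nonempty]; exact hCU r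
    have hFcl : IsClosed (C \ U r) := hCcl.sdiff (hUo r)
    obtain ⟨j, k, h1, h2⟩ := baire_piece hI hFcl hFne (fun j => (O j)ᶜ)
      (fun j => (hO j).isClosed_compl) (by
        rintro x ⟨hxC, hxU⟩
        by_contra hc
        simp only [mem_iUnion, mem_compl_iff, not_exists, not_not] at hc
        exact hxU (hr ⟨hxC, mem_iInter.2 hc⟩))
    refine mem_iUnion.2 ⟨(j, k), hrA, ?_, ?_⟩
    · intro hsub
      obtain ⟨x, ⟨hx1, hx2⟩, hx3⟩ := h1
      exact hx2 (hsub ⟨hx1, hx3⟩)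
    · rintro x ⟨⟨hx1, hx2⟩, hx3⟩
      by_contra hxU
      exact h2 ⟨⟨hx1, hxU⟩, hx2⟩ hx3
  refine IsMeagre.mono hcover (isMeagre_iUnion fun q => ?_)
  by_contra hTn
  obtain ⟨j, k⟩ := q
  obtain ⟨n, hn1, hn2⟩ := exists_local hJ hTn
  have hTA : T (j, k) ⊆ A := fun r hr => hr.1
  have hn : ¬ IsMeagre (A ∩ J n) := fun h =>
    hn1 (h.mono (inter_subset_inter_left _ hTA))
  obtain ⟨hf1, hf2⟩ := hforced n hn
  -- compact subsets of `C ∩ I k ∩ O j` are forced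
  have hK : ∀ K, IsCompact K → K ⊆ C ∩ I k ∩ O j → Forced J A U n K := by
    intro K hKc hKs
    apply IsNowhereDense.isMeagre
    by_contra hne
    have hne' : (interior (closure {r | r ∈ A ∩ J n ∧ ¬ K ⊆ U r})).Nonempty := by
      rw [nonempty_iff_ne_empty]; exact hne
    obtain ⟨y, hy⟩ := hne'
    obtain ⟨z, hz1, hz2⟩ := mem_closure_iff.1 (interior_subset hy) _ isOpen_interior hy
    have hzn : z ∈ closure (T (j, k)) := hn2 hz2.1.2
    obtain ⟨t, ht1, ht2⟩ := mem_closure_iff.1 hzn _ isOpen_interior hz1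
    have ht3 : ∀ᶠ r in 𝓝[A] t, K ⊆ U r := hcont K hKc t ht2.1 (hKs.trans ht2.2.2)
    obtain ⟨V, hVo, htV, hV⟩ := mem_nhdsWithin.1 ht3
    obtain ⟨w, hw1, hw2⟩ := mem_closure_iff.1 (interior_subset ht1) V hVo htV
    exact hw2.2 (hV ⟨hw1, hw2.1.1⟩)
  have hsub : C ∩ I k ⊆ A₁ n := by
    rintro x ⟨hxC, hxk⟩
    by_contra hx1
    have hV : IsOpen (I k ∩ (A₁ n)ᶜ) := (hI.1 k).inter (hc₁ n).isClosed.isOpen_compl
    have h1 : (C ∩ (I k ∩ (A₁ n)ᶜ) ∩ O j).Nonempty := hdense j _ hV ⟨x, hxC, hxk, hx1⟩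
    have h2 : (C ∩ (I k ∩ (A₁ n)ᶜ ∩ O j)).Nonempty := by
      obtain ⟨y, ⟨hy1, hy2⟩, hy3⟩ := h1
      exact ⟨y, hy1, hy2, hy3⟩
    have h3 := hpos _ (hV.inter (hO j)) h2
    have hm : MeasurableSet (C ∩ (I k ∩ (A₁ n)ᶜ ∩ O j)) :=
      hCcl.measurableSet.inter (hV.inter (hO j)).measurableSet
    have hfin : volume (C ∩ (I k ∩ (A₁ n)ᶜ ∩ O j)) ≠ ⊤ :=
      ne_top_of_le_ne_top (by simp) (measure_mono (inter_subset_left.trans hC01))
    obtain ⟨K, hKs, hKc, hKpos⟩ := hm.exists_lt_isCompact_of_ne_top hfin (pos_iff_ne_zero.2 h3)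
    have hKf : Forced J A U n K := hK K hKc (fun y hy => by
      obtain ⟨hy1, ⟨hy2, hy3⟩, hy4⟩ := hKs hy
      exact ⟨⟨hy1, hy2⟩, hy4⟩)
    have hK0 := hf2 K hKc (fun y hy => hC01 (hKs hy).1) hKf
    have hKA₂ : K ∩ A₂ n = K := by
      apply inter_eq_left.2
      intro y hy
      have hy' := hKs hy
      have hy'' : y ∈ A₁ n ∪ A₂ n := mem_iInter.1 (hCC₀ hy'.1).2 n
      exact hy''.resolve_left hy'.2.1.2
    rw [hKA₂] at hK0
    exact hKpos.ne' hK0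
  apply hn1
  refine IsMeagre.mono ?_ hf1
  rintro r ⟨hr1, hr2⟩
  exact ⟨⟨hr1.1, hr2⟩, fun h => hr1.2.1 (hsub.trans h)⟩

end Pool.Agent.U775.MH
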