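import Pool.Agent.U775.MH.Cantor
import Pool.Agent.U775.MH.Clean

set_option autoImplicit false

/-!
# The principle implies that there is no monotone assignment of `G_δ` hulls
-/

namespace Pool.Agent.U775.MH

open Set Filter Topology MeasureTheory
open Pool.Agent.R597.MH (IsBase exists_isBase)

/-- the least `k` such that the term of index `n + k` is `0` -/
noncomputable def kap (n : ℕ) (y : ℕ → Bool) : ℕ := sInf {k | y (n + k) = false}

theorem kap_eq {n k : ℕ} {y : ℕ → Bool} (h1 : ∀ j < k, y (n + j) = true)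
    (h2 : y (n + k) = false) : kap n y = k := by
  refine le_antisymm (Nat.sInf_le h2) (le_csInf ⟨k, h2⟩ fun j hj => ?_)
  by_contra hlt
  rw [not_le] at hlt
  have h3 := h1 j hlt
  have h4 : y (n + j) = false := hj
  rw [h3] at h4
  exact absurd h4 (by simp)

/-- Open sets of small measure indexed by the sequences of bits, such that every real number is in
almost all of them. -/
theorem exists_family : ∃ V : (ℕ → Bool) → Set ℝ, (∀ y, IsOpen (V y)) ∧
    (∀ y, volume (V y) < 1/8) ∧ ∀ x, IsMeagre {z | x ∉ V (halfB z)} := by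
  obtain ⟨ε, hε, hs⟩ := ENNReal.exists_pos_sum_of_countable (ε := 1/8) (by norm_num) ℕ
  obtain ⟨q, hq⟩ := TopologicalSpace.exists_dense_seq ℝ
  refine ⟨fun y => ⋃ n, Metric.ball (q (kap n y)) (ε n / 2), fun y => isOpen_iUnion fun n =>
    Metric.isOpen_ball, fun y => ?_, fun x => ?_⟩
  · refine lt_of_le_of_lt (measure_iUnion_le _) (lt_of_le_of_lt (le_of_eq ?_) hs)
    refine tsum_congr fun n => ?_
    rw [Real.volume_ball]
    have h1 : 2 * ((ε n : ℝ) / 2) = ε n := by ring
    rw [h1, ENNReal.ofReal_coe_nnreal]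
  · refine isMeagre_of_ext fun s => ?_
    obtain ⟨k, hk⟩ : ∃ k, x ∈ Metric.ball (q k) (ε s.length / 2) := by
      have hpos : (0 : ℝ) < ε s.length / 2 := by
        have := hε s.length
        positivity
      obtain ⟨k, hk⟩ := hq.exists_dist_lt x hpos
      exact ⟨k, hk⟩
    set L := s.length with hL
    refine ⟨s ++ (List.replicate (2 * (L + k) - L) true ++ [false]), List.prefix_append _ _,
      fun z hz hxz => hxz ?_⟩
    have hlen : (s ++ (List.replicate (2 * (L + k) - L) true ++ [false])).length =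
        2 * (L + k) + 1 := by
      simp only [List.length_append, List.length_replicate, List.length_cons, List.length_nil]
      omega
    have hval : ∀ i, L ≤ i → i ≤ 2 * (L + k) → z i = decide (i ≠ 2 * (L + k)) := by
      intro i hi1 hi2
      rw [hz i (by rw [hlen]; omega), List.getD_append_right _ _ _ _ hi1]
      by_cases h : i = 2 * (L + k)
      · rw [List.getD_append_right _ _ _ _ (by rw [List.length_replicate]; omega),
          List.length_replicate]
        have h1 : i - s.length - (2 * (L + k) - L) = 0 := by omega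
        rw [h1]
        simp [h]
      · rw [List.getD_append _ _ _ _ (by rw [List.length_replicate]; omega),
          List.getD_eq_getElem _ _ (by rw [List.length_replicate]; omega),
          List.getElem_replicate]
        simp [h]
    refine mem_iUnion.2 ⟨L, ?_⟩
    have h1 : kap L (halfB z) = k := by
      apply kap_eq
      · intro j hj
        show z (2 * (L + j)) = true
        rw [hval _ (by omega) (by omega)]
        simp only [ne_eq, decide_not, Bool.not_eq_true', decide_eq_false_iff_not]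
        omega
      · show z (2 * (L + k)) = false
        rw [hval _ (by omega) (by omega)]
        simp
    rw [h1]
    exact hk

theorem no_assignment (hP : ContinuousHalf) (φ : Set ℝ → Set ℝ)
    (h1 : ∀ D : Set ℝ, D ⊆ Icc 0 1 → D.Countable → D ⊆ φ D ∧ IsGδ (φ D))
    (h2 : ∀ V : Set ℝ, IsOpen V → volume (φ (Icc 0 1 ∩ V)) = volume (Icc 0 1 ∩ V))
    (h3 : ∀ D V : Set ℝ, D ⊆ Icc 0 1 → D.Countable → IsOpen V → D ⊆ Icc 0 1 ∩ V →
      φ D ⊆ φ (Icc 0 1 ∩ V)) : False := by
  obtain ⟨V, hV, hVv, hVm⟩ := exists_family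
  have hB : ∀ y, volume (φ (Icc 0 1 ∩ V y)) < 1/4 := by
    intro y
    rw [h2 _ (hV y)]
    calc volume (Icc 0 1 ∩ V y) ≤ volume (V y) := measure_mono inter_subset_right
      _ < 1/8 := hVv y
      _ ≤ 1/4 := by
        rw [one_div, one_div]
        exact ENNReal.inv_le_inv.2 (by norm_num)
  have hex : ∀ y, ∃ U : Set ℝ, φ (Icc 0 1 ∩ V y) ⊆ U ∧ IsOpen U ∧ volume U < 1/4 :=
    fun y => Set.exists_isOpen_lt_of_lt _ _ (hB y)
  choose U hU1 hU2 hU3 using hex
  -- coding
  obtain ⟨I, hI⟩ := exists_isBase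
  classical
  obtain ⟨A, hA, haA⟩ := hP.exists_nonmeagre (fun y n => decide (I n ⊆ U y))
  have hK : ∀ K, IsCompact K → ∀ r₀ ∈ A, K ⊆ U (halfB r₀) → ∀ᶠ r in 𝓝[A] r₀,
      K ⊆ U (halfB r) := by
    intro K hK r₀ hr₀ hKU
    have hcov : K ⊆ ⋃ n : {n // I n ⊆ U (halfB r₀)}, I n := by
      intro x hx
      obtain ⟨n, hn1, hn2⟩ := hI.2 _ (hU2 (halfB r₀)) x (hKU hx)
      exact mem_iUnion.2 ⟨⟨n, hn2⟩, hn1⟩
    obtain ⟨t, ht⟩ := hK.elim_finite_subcover (fun n : {n // I n ⊆ U (halfB r₀)} => I n)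
      (fun n => hI.1 n) hcov
    have hev : ∀ᶠ r in 𝓝[A] r₀, ∀ n ∈ t, decide (I (n : ℕ) ⊆ U (halfB r)) = true := by
      rw [Filter.eventually_all_finset]
      intro n hn
      have hc : ContinuousWithinAt (fun r => decide (I (n : ℕ) ⊆ U (halfB r))) A r₀ :=
        (continuous_apply (A := fun _ : ℕ => Bool) (n : ℕ)).continuousAt.comp_continuousWithinAt
          (haA r₀ hr₀)
      have hmem : {b : Bool | b = true} ∈ 𝓝 (decide (I (n : ℕ) ⊆ U (halfB r₀))) := by
        rw [decide_eq_true n.2]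
        exact (isOpen_discrete {b : Bool | b = true}).mem_nhds rfl
      exact hc hmem
    filter_upwards [hev] with r hr
    refine ht.trans (iUnion₂_subset fun n hn => ?_)
    exact of_decide_eq_true (hr n hn)
  obtain ⟨C, hCc, hC01, hC⟩ := clean_set (U := fun z => U (halfB z)) (fun z => hU2 _)
    (fun z => hU3 _) hK
  -- a countable dense subset of `C`
  set D : Set ℝ := range (fun k : {k // (C ∩ I k).Nonempty} => k.2.some) with hD
  have hDC : D ⊆ C := by
    rintro x ⟨k, rfl⟩
    exact k.2.some_mem.1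
  have hDc : D.Countable := countable_range _
  have hD01 : D ⊆ Icc 0 1 := hDC.trans hC01
  have hDd : ∀ V : Set ℝ, IsOpen V → (C ∩ V).Nonempty → (D ∩ V).Nonempty := by
    rintro V hVo ⟨x, hxC, hxV⟩
    obtain ⟨k, hk1, hk2⟩ := hI.2 V hVo x hxV
    have hne : (C ∩ I k).Nonempty := ⟨x, hxC, hk1⟩
    exact ⟨hne.some, ⟨⟨k, hne⟩, rfl⟩, hk2 hne.some_mem.2⟩
  obtain ⟨hDφ, hGδ⟩ := h1 D hD01 hDc
  obtain ⟨W, hWo, hW⟩ := hGδ.eq_iInter_nat
  have hm1 := hC W hWo (by
    intro j V hVo hne
    obtain ⟨x, hxD, hxV⟩ := hDd V hVo hne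
    have hxW : x ∈ ⋂ n, W n := hW ▸ hDφ hxD
    exact ⟨x, ⟨hDC hxD, hxV⟩, mem_iInter.1 hxW j⟩)
  have hm2 : IsMeagre (⋃ d ∈ D, {z | d ∉ V (halfB z)}) :=
    isMeagre_biUnion hDc fun d _ => hVm d
  apply hA
  refine IsMeagre.mono ?_ (hm1.union hm2)
  intro r hr
  by_cases hrD : ∀ d ∈ D, d ∈ V (halfB r)
  · refine Or.inl ⟨hr, ?_⟩
    rw [← hW]
    have hsub : D ⊆ Icc 0 1 ∩ V (halfB r) := fun d hd => ⟨hD01 hd, hrD d hd⟩
    exact inter_subset_right.trans ((h3 D _ hD01 hDc (hV _) hsub).trans (hU1 _))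
  · push Not at hrD
    obtain ⟨d, hd, hdr⟩ := hrD
    exact Or.inr (mem_iUnion₂.2 ⟨d, hd, hdr⟩)

end Pool.Agent.U775.MH
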