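import Pool.Agent.U775.MH.Defs

set_option autoImplicit false

/-!
# The principle gives continuity on non-meagre sets
-/

namespace Pool.Agent.U775.MH

open Set Filter Topology MeasureTheory

/-- the sequences of bits which start with `t` -/
def cyl (t : List Bool) : Set (ℕ → Bool) := {z | ∀ i < t.length, z i = t.getD i false}

theorem isOpen_cyl (t : List Bool) : IsOpen (cyl t) := by
  have h1 : cyl t = ⋂ i ∈ Finset.range t.length, {z : ℕ → Bool | z i = t.getD i false} := by
    ext z
    simp [cyl]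
  rw [h1]
  refine isOpen_biInter_finset fun i _ => ?_
  exact (isOpen_discrete ({t.getD i false} : Set Bool)).preimage
    (continuous_apply (A := fun _ : ℕ => Bool) i)

theorem cyl_mono {s t : List Bool} (h : s <+: t) : cyl t ⊆ cyl s := by
  intro z hz i hi
  obtain ⟨u, rfl⟩ := h
  rw [hz i (by rw [List.length_append]; omega), List.getD_append _ _ _ _ hi]

/-- the initial segment of length `n` -/
def ini (z : ℕ → Bool) (n : ℕ) : List Bool := List.ofFn fun i : Fin n => z i

theorem length_ini (z : ℕ → Bool) (n : ℕ) : (ini z n).length = n := List.length_ofFn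

theorem getD_ini {z : ℕ → Bool} {n i : ℕ} (h : i < n) : (ini z n).getD i false = z i := by
  rw [List.getD_eq_getElem _ _ (by rwa [length_ini])]
  simp [ini]

theorem mem_cyl_ini (z : ℕ → Bool) (n : ℕ) : z ∈ cyl (ini z n) := by
  intro i hi
  rw [length_ini] at hi
  rw [getD_ini hi]

theorem exists_cyl {U : Set (ℕ → Bool)} (hU : IsOpen U) {z : ℕ → Bool} (hz : z ∈ U) :
    ∃ n, cyl (ini z n) ⊆ U := by
  obtain ⟨I, u, h1, h2⟩ := isOpen_pi_iff.1 hU z hz
  refine ⟨I.sup id + 1, fun w hw => h2 ?_⟩
  intro i hi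
  have h3 : i < I.sup id + 1 := Nat.lt_succ_of_le (Finset.le_sup (f := id) hi)
  have h4 : w i = z i := by
    rw [hw i (by rwa [length_ini]), getD_ini h3]
  rw [h4]
  exact (h1 i hi).2

theorem cyl_nonempty (t : List Bool) : (cyl t).Nonempty :=
  ⟨fun i => t.getD i false, fun _ _ => rfl⟩

/-- a set containing, for every finite sequence, a cylinder of an extension, is comeagre -/
theorem isMeagre_of_ext {M : Set (ℕ → Bool)} (h : ∀ s : List Bool, ∃ t, s <+: t ∧
    ∀ z ∈ cyl t, z ∉ M) : IsMeagre M := by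
  set G : Set (ℕ → Bool) := ⋃ t ∈ {t : List Bool | ∀ z ∈ cyl t, z ∉ M}, cyl t with hG
  have hGo : IsOpen G := isOpen_biUnion fun t _ => isOpen_cyl t
  have hGd : Dense G := by
    rw [dense_iff_inter_open]
    rintro U hU ⟨z, hz⟩
    obtain ⟨n, hn⟩ := exists_cyl hU hz
    obtain ⟨t, ht1, ht2⟩ := h (ini z n)
    obtain ⟨w, hw⟩ := cyl_nonempty t
    exact ⟨w, hn (cyl_mono ht1 hw), mem_biUnion (show t ∈ {t | _} from ht2) hw⟩
  have h1 : Gᶜᶜ ∈ residual (ℕ → Bool) := by
    rw [compl_compl]
    exact residual_of_dense_open hGo hGd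
  refine IsMeagre.mono ?_ h1
  intro z hz hzG
  obtain ⟨t, ht, hzt⟩ := mem_iUnion₂.1 hzG
  exact ht z hzt hz

theorem exists_code {M : Set (ℕ → Bool)} (h : IsMeagre M) :
    ∃ D : ℕ → List Bool → Prop, (∀ j s, ∃ t, s <+: t ∧ D j t) ∧
      ∀ z ∈ M, ∃ j, ∀ t, z ∈ cyl t → ¬ D j t := by
  obtain ⟨S, hSo, hSd, hSc, hSM⟩ := mem_residual_iff.1 h
  obtain ⟨U, hU⟩ := (hSc.insert univ).exists_eq_range (insert_nonempty _ _)
  have hUo : ∀ j, IsOpen (U j) ∧ Dense (U j) := by
    intro j
    have h1 : U j ∈ insert univ S := by rw [hU]; exact mem_range_self j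
    rcases h1 with h1 | h1
    · rw [h1]
      exact ⟨isOpen_univ, dense_univ⟩
    · exact ⟨hSo _ h1, hSd _ h1⟩
  refine ⟨fun j t => cyl t ⊆ U j, fun j s => ?_, fun z hz => ?_⟩
  · obtain ⟨w, hw1, hw2⟩ := (hUo j).2.inter_open_nonempty _ (isOpen_cyl s) (cyl_nonempty s)
    obtain ⟨n, hn⟩ := exists_cyl (hUo j).1 hw2
    refine ⟨ini w (max n s.length), ?_, ?_⟩
    · have h1 : s = ini w s.length := by
        apply List.ext_getElem (by rw [length_ini])
        intro i hi _
        rw [← List.getD_eq_getElem s false hi, ← List.getD_eq_getElem _ false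
          (by rwa [length_ini]), getD_ini hi, hw1 i hi]
      rw [List.prefix_iff_eq_take]
      apply List.ext_getElem
      · rw [List.length_take, length_ini]
        omega
      · intro i hi hi'
        rw [List.getElem_take, ← List.getD_eq_getElem s false hi,
          ← List.getD_eq_getElem _ false (by rw [length_ini]; omega), getD_ini (by omega),
          hw1 i hi]
    · refine subset_trans ?_ hn
      intro v hv i hi
      rw [length_ini] at hi
      rw [hv i (by rw [length_ini]; omega), getD_ini (by omega), getD_ini hi]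
  · have h1 : z ∉ ⋂₀ S := fun h2 => hSM h2 hz
    rw [mem_sInter] at h1
    push Not at h1
    obtain ⟨V, hV, hzV⟩ := h1
    obtain ⟨j, rfl⟩ : ∃ j, U j = V := by
      have h2 : V ∈ range U := by rw [← hU]; exact Or.inr hV
      exact h2
    exact ⟨j, fun t ht hs => hzV (hs ht)⟩

/-- the sequence of the even terms -/
def halfB (z : ℕ → Bool) : ℕ → Bool := fun n => z (2 * n)

/-- In other words. -/
theorem ContinuousHalf.exists_nonmeagre (h : ContinuousHalf) (F : (ℕ → Bool) → ℕ → Bool) :
    ∃ A : Set (ℕ → Bool), ¬ IsMeagre A ∧ ContinuousOn (fun z => F (halfB z)) A := by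
  classical
  let G : (ℕ → Prop) → ℕ → Prop := fun x n => F (fun k => decide (x k)) n = true
  obtain ⟨C, hC⟩ := h G
  have hpre : ∀ (s : List Bool) (z : ℕ → Bool), Seg s (fun i => z i = true) ↔ z ∈ cyl s := by
    intro s z
    refine forall_congr' fun i => forall_congr' fun _ => ?_
    constructor
    · intro h1
      exact (Bool.eq_iff_iff.2 h1).symm
    · intro h1
      show s.getD i false = true ↔ z i = true
      rw [h1]
  have hval : ∀ z : ℕ → Bool, ∀ n, G (half fun i => z i = true) n ↔ F (halfB z) n = true := by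
    intro z n
    simp only [G, half, Bool.decide_eq_true]
    exact Iff.rfl
  set A : Set (ℕ → Bool) := {z | ∀ n b, F (halfB z) n = b ↔ ∃ s, z ∈ cyl s ∧ C s n b} with hA
  refine ⟨A, fun hm => ?_, ?_⟩
  · obtain ⟨D, hD1, hD2⟩ := exists_code hm
    obtain ⟨z, hz1, hz2⟩ := hC D hD1
    set w : ℕ → Bool := fun i => decide (z i) with hw
    have hzw : z = fun i => w i = true := by
      funext i
      simp [hw]
    rw [hzw] at hz1 hz2
    have hwA : w ∈ A := by
      intro n b
      obtain ⟨h1, h2⟩ := hz2 n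
      rw [hval w n] at h1 h2
      simp only [hpre] at h1 h2
      cases b
      · rw [← h2]
        simp
      · exact h1
    obtain ⟨j, hj⟩ := hD2 w hwA
    obtain ⟨t, ht1, ht2⟩ := hz1 j
    exact hj t ((hpre t w).1 ht1) ht2
  · intro z hz
    rw [ContinuousWithinAt, tendsto_pi_nhds]
    intro n
    have h1 : pure (F (halfB z) n) ≤ 𝓝 (F (halfB z) n) := pure_le_nhds _
    refine Tendsto.mono_right ?_ h1
    rw [tendsto_pure]
    obtain ⟨s, hs1, hs2⟩ := (hz n (F (halfB z) n)).1 rfl
    have h2 : cyl s ∈ 𝓝 z := (isOpen_cyl s).mem_nhds hs1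
    filter_upwards [mem_nhdsWithin_of_mem_nhds h2, self_mem_nhdsWithin] with w hw hwA
    exact (hwA n (F (halfB z) n)).2 ⟨s, hw, hs2⟩

end Pool.Agent.U775.MH
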