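import Mathlib
import Pool.Agent.Helper669.Forcing

set_option autoImplicit false

/-!
# A principle on functions from `P(ℕ)` to `P(ℕ)`, and its translation to the forcing language

Subsets of `ℕ` are given by predicates `x : ℕ → Prop`. In the forcing language (see
`Pool.Agent.Helper669.Forcing`: a sentence is the set of the conditions which force it) they are
named by the maps `x : ℕ → Set P`, and `meets (x n)` is the sentence which says that `n` is in `x`.
-/

namespace Pool.Agent.U775.MH

open Set Pool.Agent.Helper669.Forcing

/-- The finite sequence `s` of bits is an initial segment of the characteristic function of `x`. -/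
def Seg (s : List Bool) (x : ℕ → Prop) : Prop :=
  ∀ i < s.length, (s.getD i false = true ↔ x i)

/-- the set of the `n` with `2 n ∈ x` -/
def half (x : ℕ → Prop) : ℕ → Prop := fun n => x (2 * n)

/-- For every function `F` from `P(ℕ)` to `P(ℕ)` there is a relation `C` with the following
property: whatever open dense sets, coded by the sets `D j` of finite sequences, are given, there
is a `z` in all these open sets such that the elements (and the non-elements) `n` of `F (half z)`
are exactly those for which `C s n true` (respectively `C s n false`) holds for some initial
segment `s` of `z`. In other words, the function `z ↦ F (half z)` is continuous on a non-meagre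
subset of `P(ℕ)`. -/
def ContinuousHalf : Prop :=
  ∀ F : (ℕ → Prop) → ℕ → Prop, ∃ C : List Bool → ℕ → Bool → Prop,
    ∀ D : ℕ → List Bool → Prop, (∀ j s, ∃ t, s <+: t ∧ D j t) →
      ∃ z : ℕ → Prop, (∀ j, ∃ t, Seg t z ∧ D j t) ∧
        ∀ n, (F (half z) n ↔ ∃ s, Seg s z ∧ C s n true) ∧
          (¬ F (half z) n ↔ ∃ s, Seg s z ∧ C s n false)

section forcing

variable {P : Type} [Preorder P]

/-- `φ` if and only if `ψ` -/
def fiff (φ ψ : Set P) : Set P := fand (fimp φ ψ) (fimp ψ φ)

/-- translation of `Seg` -/
def SegN (s : List Bool) (x : ℕ → Set P) : Set P :=
  fall fun i : ℕ => fall fun _ : i < s.length =>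
    fiff (fground (s.getD i false = true)) (meets (x i))

/-- translation of `half` -/
def halfN (x : ℕ → Set P) : ℕ → Set P := fun n => x (2 * n)

/-- The map `F` of names is (in the extension) a function from `P(ℕ)` to `P(ℕ)`: names of equal
sets are sent to names of equal sets. -/
def Functional (F : (ℕ → Set P) → ℕ → Set P) : Set P :=
  fall fun x => fall fun y => fimp (fall fun n => fiff (meets (x n)) (meets (y n)))
    (fall fun n => fiff (meets (F x n)) (meets (F y n)))

/-- translation of `ContinuousHalf` -/
def ContinuousHalfN (P : Type) [Preorder P] : Set P :=
  fall fun F : (ℕ → Set P) → ℕ → Set P => fimp (Functional F)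
    (fex fun C : List Bool → ℕ → Bool → Set P =>
      fall fun D : ℕ → List Bool → Set P =>
        fimp (fall fun j => fall fun s => fex fun t => fand (fground (s <+: t)) (meets (D j t)))
          (fex fun z : ℕ → Set P =>
            fand (fall fun j => fex fun t => fand (SegN t z) (meets (D j t)))
              (fall fun n => fand
                (fiff (meets (F (halfN z) n))
                  (fex fun s => fand (SegN s z) (meets (C s n true))))
                (fiff (fnot (meets (F (halfN z) n)))
                  (fex fun s => fand (SegN s z) (meets (C s n false)))))))

end forcing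

end Pool.Agent.U775.MH
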