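import Pool.Agent.U775.MH.Defs
import Pool.Agent.Y577.AD.Kunen

set_option autoImplicit false

/-!
# Conditions which decide an initial segment of a Cohen real
-/

namespace Pool.Agent.U775.MH

open Set Cardinal Pool.Agent.Helper669.Forcing Pool.Agent.H458R4.Cohen

variable {K : Type}

open Classical in
/-- the values prescribed by the sequence `t` at the points enumerated by `ζ` -/
noncomputable def lst (ζ : ℕ → K × ℕ) (t : List Bool) : Finset ((K × ℕ) × Bool) :=
  (Finset.range t.length).image fun i => (ζ i, t.getD i false)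

theorem mem_lst {ζ : ℕ → K × ℕ} {t : List Bool} {y : (K × ℕ) × Bool} :
    y ∈ lst ζ t ↔ ∃ i < t.length, y = (ζ i, t.getD i false) := by
  classical
  simp only [lst, Finset.mem_image, Finset.mem_range]
  constructor
  · rintro ⟨i, hi, h⟩
    exact ⟨i, hi, h.symm⟩
  · rintro ⟨i, hi, h⟩
    exact ⟨i, hi, h.symm⟩

open Classical in
/-- the condition `r` with its values at the points enumerated by `ζ` replaced by `t` -/
noncomputable def put (ζ : ℕ → K × ℕ) (hζ : Function.Injective ζ) (t : List Bool) (r : Fn K) :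
    Fn K :=
  ⟨(r.g.filter fun y => y.1 ∉ Set.range ζ) ∪ lst ζ t, by
    intro a b b' h h'
    rcases Finset.mem_union.1 h with h | h <;> rcases Finset.mem_union.1 h' with h' | h'
    · exact r.fn a b b' (Finset.mem_filter.1 h).1 (Finset.mem_filter.1 h').1
    · obtain ⟨i, _, h1⟩ := mem_lst.1 h'
      have h2 : a = ζ i := congrArg Prod.fst h1
      exact absurd ⟨i, h2.symm⟩ (Finset.mem_filter.1 h).2
    · obtain ⟨i, _, h1⟩ := mem_lst.1 h
      have h2 : a = ζ i := congrArg Prod.fst h1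
      exact absurd ⟨i, h2.symm⟩ (Finset.mem_filter.1 h').2
    · obtain ⟨i, _, h1⟩ := mem_lst.1 h
      obtain ⟨j, _, h2⟩ := mem_lst.1 h'
      simp only [Prod.mk.injEq] at h1 h2
      have h3 : i = j := hζ (h1.1.symm.trans h2.1)
      rw [h1.2, h2.2, h3]⟩

theorem mem_put {ζ : ℕ → K × ℕ} {hζ : Function.Injective ζ} {t : List Bool} {r : Fn K}
    {y : (K × ℕ) × Bool} : y ∈ (put ζ hζ t r).g ↔
      (y ∈ r.g ∧ y.1 ∉ Set.range ζ) ∨ ∃ i < t.length, y = (ζ i, t.getD i false) := by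
  classical
  simp only [put, Finset.mem_union, Finset.mem_filter, mem_lst]

theorem clean (ζ : ℕ → K × ℕ) (hζ : Function.Injective ζ) (r : Fn K) (L : ℕ) :
    ∃ s : List Bool, L ≤ s.length ∧ put ζ hζ s r ≤ r := by
  classical
  obtain ⟨N, hN⟩ : ∃ N, ∀ i b, (ζ i, b) ∈ r.g → i < N := by
    have h1 : {i : ℕ | ∃ b, (ζ i, b) ∈ r.g}.Finite := by
      have h2 : (ζ '' {i : ℕ | ∃ b, (ζ i, b) ∈ r.g}).Finite := by
        refine ((Finset.finite_toSet r.g).image Prod.fst).subset ?_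
        rintro _ ⟨i, ⟨b, hb⟩, rfl⟩
        exact ⟨_, hb, rfl⟩
      exact h2.of_finite_image hζ.injOn
    obtain ⟨N, hN⟩ := h1.bddAbove
    exact ⟨N + 1, fun i b h => Nat.lt_succ_of_le (hN ⟨b, h⟩)⟩
  refine ⟨List.ofFn fun i : Fin (max L N) => decide ((ζ i, true) ∈ r.g), ?_, ?_⟩
  · rw [List.length_ofFn]
    exact le_max_left _ _
  · rw [le_iff]
    rintro ⟨a, b⟩ hy
    rw [mem_put]
    by_cases ha : a ∈ Set.range ζ
    · obtain ⟨i, rfl⟩ := ha
      have hi : i < max L N := lt_of_lt_of_le (hN i b hy) (le_max_right _ _)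
      refine Or.inr ⟨i, by rwa [List.length_ofFn], ?_⟩
      rw [List.getD_eq_getElem _ _ (by rwa [List.length_ofFn]), List.getElem_ofFn]
      cases b
      · have h1 : (ζ i, true) ∉ r.g := fun h => absurd (r.fn _ _ _ h hy) (by simp)
        simp [h1]
      · simp [hy]
    · exact Or.inl ⟨hy, ha⟩

theorem put_le_put {ζ : ℕ → K × ℕ} {hζ : Function.Injective ζ} {s t : List Bool} {r r' : Fn K}
    (h : r' ≤ put ζ hζ s r) (hst : s <+: t) : put ζ hζ t r' ≤ put ζ hζ s r := by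
  rw [le_iff]
  intro y hy
  rw [mem_put]
  rcases mem_put.1 hy with ⟨h1, h2⟩ | ⟨i, hi, h1⟩
  · exact Or.inl ⟨h hy, h2⟩
  · refine Or.inr ⟨i, lt_of_lt_of_le hi hst.length_le, ?_⟩
    rw [h1]
    obtain ⟨u, rfl⟩ := hst
    rw [List.getD_append _ _ _ _ hi]

/-- the real with the bits at the points enumerated by `ζ` -/
def cr (ζ : ℕ → K × ℕ) : ℕ → Set (Fn K) := fun i => {p | (ζ i, true) ∈ p.g}

theorem down_cr (ζ : ℕ → K × ℕ) (i : ℕ) : Down (cr ζ i) := fun _ hp _ hq => hq hp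

theorem mem_fiff {P : Type} [Preorder P] {φ ψ : Set P} {p : P} :
    p ∈ fiff φ ψ ↔ (∀ q ≤ p, q ∈ φ → ∃ r ≤ q, r ∈ ψ) ∧ (∀ q ≤ p, q ∈ ψ → ∃ r ≤ q, r ∈ φ) := by
  simp only [fiff, mem_fand, mem_fimp]

theorem down_fiff {P : Type} [Preorder P] (φ ψ : Set P) : Down (fiff φ ψ) :=
  down_fand (down_fimp _ _) (down_fimp _ _)

theorem down_SegN {P : Type} [Preorder P] (s : List Bool) (x : ℕ → Set P) : Down (SegN s x) :=
  down_fall fun _ => down_fall fun _ => down_fiff _ _

theorem segN_of_mem {ζ : ℕ → K × ℕ} {t : List Bool} {r : Fn K}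
    (h : ∀ i < t.length, (ζ i, t.getD i false) ∈ r.g) : r ∈ SegN t (cr ζ) := by
  intro i hi
  rw [mem_fiff]
  have h1 := h i hi
  constructor
  · intro q hq hg
    refine ⟨q, le_rfl, meets_of_mem ?_⟩
    rw [mem_fground] at hg
    rw [hg] at h1
    exact hq h1
  · intro q hq hm
    refine ⟨q, le_rfl, ?_⟩
    rw [mem_fground]
    by_contra hne
    have h2 : t.getD i false = false := by simpa using hne
    rw [h2] at h1
    obtain ⟨q', hq', hq''⟩ := exists_of_meets (down_cr ζ i) hm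
    have h3 : (ζ i, false) ∈ q'.g := hq' (hq h1)
    exact absurd (q'.fn _ _ _ h3 hq'') (by simp)

theorem segN_put {ζ : ℕ → K × ℕ} {hζ : Function.Injective ζ} {t : List Bool} {r : Fn K} :
    put ζ hζ t r ∈ SegN t (cr ζ) :=
  segN_of_mem fun i hi => mem_put.2 (Or.inr ⟨i, hi, rfl⟩)

theorem exists_of_segN {ζ : ℕ → K × ℕ} (hζ : Function.Injective ζ) {s : List Bool} {r : Fn K}
    (h : r ∈ SegN s (cr ζ)) : ∃ r' ≤ r, ∀ i < s.length, (ζ i, s.getD i false) ∈ r'.g := by
  obtain ⟨t, ht, hle⟩ := clean ζ hζ r s.length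
  refine ⟨put ζ hζ t r, hle, fun i hi => ?_⟩
  have h1 : (ζ i, t.getD i false) ∈ (put ζ hζ t r).g :=
    mem_put.2 (Or.inr ⟨i, lt_of_lt_of_le hi ht, rfl⟩)
  have h2 := mem_fiff.1 (h i hi)
  suffices h3 : t.getD i false = s.getD i false by rwa [← h3]
  cases hs : s.getD i false
  · by_contra hne
    have h4 : t.getD i false = true := by simpa using hne
    rw [h4] at h1
    obtain ⟨q, _, hq⟩ := h2.2 _ hle (meets_of_mem h1)
    rw [mem_fground, hs] at hq
    exact absurd hq (by simp)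
  · by_contra hne
    have h4 : t.getD i false = false := by simpa using hne
    rw [h4] at h1
    obtain ⟨q, hq, hq'⟩ := h2.1 _ hle (by rw [mem_fground, hs])
    obtain ⟨q', hq1, hq2⟩ := exists_of_meets (down_cr ζ i) hq'
    exact absurd (q'.fn _ _ _ (hq1 (hq h1)) hq2) (by simp)

end Pool.Agent.U775.MH
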